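import Pool.Agent.R615.Cryst.Geo

set_option autoImplicit false

/-!
# An irreducible split crystallographic group that is not homogeneous

The definitions (types in the language of groups, homogeneous groups, crystallographic groups,
split and irreducible ones) are in `Pool/Agent/R615/Cryst/Defs.lean`.

The group is `T ⋊ S_5` acting on the hyperplane `x_1 + ... + x_5 = 0` of `ℝ^5`, where `T` is the
lattice of the integral vectors with sum `0` all of whose coordinates are congruent modulo `5`, and
`S_5` permutes the coordinates. With `t = (-4,1,1,1,1)` and a `5`-cycle `c`, the elements `(t, c)`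
and `(2t, c)` of order `5` have the same type, but there is no automorphism that maps the first to
the second.
-/

open FirstOrder FirstOrder.Language

namespace Pool.Agent.Results.MP_881be3_lc.NotHomogeneous

open Pool.Agent.R615.Cryst

/-- Isomorphic groups are isomorphic as structures. -/
noncomputable def lEquiv {G H : Type} [Group G] [Group H] (e : G ≃* H) : G ≃[grpLang] H where
  toEquiv := e.toEquiv
  map_fun' := by
    intro n f x
    match n, f with
    | _, GrpFn.mul => exact e.map_mul _ _
    | _, GrpFn.inv => exact e.map_inv _
    | _, GrpFn.one => exact e.map_one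
  map_rel' := by
    intro n r
    exact Empty.elim r

/-- There is an irreducible split crystallographic group (of dimension `4`) that is not
homogeneous. -/
theorem result : ∃ Γ : Subgroup (E 4 ≃ᵢ E 4),
    IsCrystallographic Γ ∧ IsSplit Γ ∧ IsIrreducible Γ ∧ ¬ IsHomogeneous Γ := by
  refine ⟨Gam, crystallographic, split, irreducible, ?_⟩
  intro hom
  let e : GG ≃* Gam := MonoidHom.ofInjective Phi_injective
  obtain ⟨σ, hσ⟩ := hom 1 (fun _ => e (um 1)) (fun _ => e (um 2)) (by
    intro φ
    have h := same_type φ
    have h1 := StrongHomClass.realize_formula (lEquiv e) φ (v := fun _ : Fin 1 => um 1)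
    have h2 := StrongHomClass.realize_formula (lEquiv e) φ (v := fun _ : Fin 1 => um 2)
    exact h1.trans (h.trans h2.symm))
  refine no_aut ((e.trans σ).trans e.symm) ?_
  change e.symm (σ (e (um 1))) = um 2
  rw [hσ 0, MulEquiv.symm_apply_apply]

end Pool.Agent.Results.MP_881be3_lc.NotHomogeneous
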